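import Mathlib
import Pool.Agent.Z894.CP.Stm2
import Pool.Agent.Y170.LX.Fin

/-!
# Project MB, part 2: comparison of Hilbert functions of an integral extension

Adapted from `compare3` and `finish3` of `Pool/Agent/Y170/LX/Fin.lean` (after `compare2` and
`finish2` of the library TH922/KC).
-/

set_option autoImplicit false
set_option linter.unusedSectionVars false

open MvPolynomial

namespace Pool.Agent.Y170.MB

open Pool.Agent.TH922.KC Pool.Agent.Z894.LX Pool.Agent.Y170.LX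

section cmp

variable {κ Ω X β : Type*} [Field κ] [Field Ω] [Algebra κ Ω] [Fintype X] [Fintype β]
  {y : X → Ω} {z : β → Ω} {e : β → ℕ}

theorem compare4 (j0 : X) (hj0 : y j0 ≠ 0)
    (he : ∀ i, 0 < e i) (g : β → ℕ → Ω) (hg : ∀ i, ∀ k < e i, g i k ∈ Pc κ y (1 * (e i - k)))
    (hz : ∀ i, z i ^ e i = ∑ k ∈ Finset.range (e i), g i k * z i ^ k) :
    ∃ δ c1 c2 : ℕ, 0 < δ ∧ ((∀ i, z i / y j0 ∈ RF κ y j0) → δ = 1) ∧ ∀ t,
      Module.finrank κ (Pc κ (Sum.elim y z) t)
        ≤ δ * Module.finrank κ (Pc κ y (t + c1)) ∧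
      δ * Module.finrank κ (Pc κ y t)
        ≤ Module.finrank κ (Pc κ (Sum.elim y z) (t + c2)) := by
  classical
  set u : X ⊕ β → Ω := Sum.elim y z with hu
  set s0 := y j0 with hs0
  have hs00 : s0 ≠ 0 := hj0
  set KA := RF κ y j0 with hKA
  set v : β → Ω := fun i => z i / s0 with hv
  have hint : ∀ i, IsIntegral KA (v i) := by
    intro i
    have hc : ∀ k : Fin (e i), g i k / s0 ^ (e i - k) ∈ KA := by
      intro k
      have h2 := Pc_div_mem hj0 (hg i k k.2)
      rw [one_mul] at h2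
      exact h2
    let c : Fin (e i) → KA := fun k => ⟨g i k / s0 ^ (e i - k), hc k⟩
    refine ⟨Polynomial.X ^ e i - ∑ k : Fin (e i), Polynomial.C (c k) * Polynomial.X ^ (k : ℕ),
      ?_, ?_⟩
    · refine (Polynomial.monic_X_pow (e i)).sub_of_left ?_
      rw [Polynomial.degree_X_pow]
      exact Polynomial.degree_sum_fin_lt c
    · rw [Polynomial.eval₂_sub, Polynomial.eval₂_X_pow, Polynomial.eval₂_finsetSum, sub_eq_zero]
      have h3 : v i ^ e i = z i ^ e i / s0 ^ e i := by simp only [hv, div_pow]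
      rw [h3, hz i, Finset.sum_range, Finset.sum_div]
      refine Finset.sum_congr rfl fun k _ => ?_
      rw [Polynomial.eval₂_mul, Polynomial.eval₂_C, Polynomial.eval₂_X_pow]
      have h4 : algebraMap KA Ω (c k) = g i k / s0 ^ (e i - k) := rfl
      rw [h4]
      simp only [hv, div_pow]
      rw [div_mul_div_comm, ← pow_add, Nat.sub_add_cancel k.2.le]
  have hfd : FiniteDimensional KA (IntermediateField.adjoin KA (Set.range v)) :=
    IntermediateField.finiteDimensional_adjoin (by rintro _ ⟨i, rfl⟩; exact hint i)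
  obtain ⟨μ, hμi, hμs⟩ := mono_basis v (fun i => (hint i).isAlgebraic)
  have hδ0 : 0 < Module.finrank KA (IntermediateField.adjoin KA (Set.range v)) :=
    Module.finrank_pos
  have hδ1 : (∀ i, z i / s0 ∈ KA) →
      Module.finrank KA (IntermediateField.adjoin KA (Set.range v)) = 1 := by
    intro h
    rw [IntermediateField.finrank_adjoin_eq_one_iff]
    rintro _ ⟨i, rfl⟩
    exact IntermediateField.mem_bot.2 ⟨⟨z i / s0, h i⟩, rfl⟩
  generalize Module.finrank KA (IntermediateField.adjoin KA (Set.range v)) = δ at μ hμi hμs hδ0 hδ1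
  set m : Fin δ → Ω := fun k => ∏ i, v i ^ μ k i with hm
  set τ : ℕ := ∑ k, ∑ i, μ k i with hτ
  have hτk : ∀ k, ∑ i, μ k i ≤ τ := fun k =>
    Finset.single_le_sum (f := fun k => ∑ i, μ k i) (fun _ _ => Nat.zero_le _) (Finset.mem_univ k)
  have hMk : ∀ k, s0 ^ τ * m k ∈ Pc κ u τ := by
    intro k
    have h1 : s0 ^ τ * m k = (∏ i, z i ^ μ k i) * s0 ^ (τ - ∑ i, μ k i) := by
      have h2 : s0 ^ τ = s0 ^ (∑ i, μ k i) * s0 ^ (τ - ∑ i, μ k i) := by
        rw [← pow_add, Nat.add_sub_cancel' (hτk k)]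
      rw [h2, mul_right_comm]
      congr 1
      simp only [hm]
      rw [← Finset.prod_pow_eq_pow_sum, ← Finset.prod_mul_distrib]
      refine Finset.prod_congr rfl fun i _ => ?_
      simp only [hv]
      rw [← mul_pow, mul_div_cancel₀ _ hs00]
    rw [h1]
    have h3 := Pc_mul (Pc_prod (κ := κ) (u := u) Finset.univ (fun i => 1 * μ k i)
      (fun i => z i ^ μ k i) (fun i _ => Pc_pow (Pc_X u (Sum.inr i)) _))
      (Pc_pow (Pc_X (κ := κ) u (Sum.inl j0)) (τ - ∑ i, μ k i))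
    simp only [one_mul] at h3
    rwa [Nat.add_sub_cancel' (hτk k)] at h3
  -- part one
  have hbox1 : ∀ γ : (i : β) → Fin (e i), ∃ f : Fin δ → KA,
      (∏ i, v i ^ (γ i : ℕ)) = ∑ k, algebraMap KA Ω (f k) * m k := by
    intro γ
    apply hμs
    exact prod_mem fun i _ => pow_mem
      (IntermediateField.subset_adjoin _ _ (Set.mem_range_self i)) _
  choose f hf using hbox1
  obtain ⟨N, b, hb, hb0, hfb⟩ := common_RF (κ := κ) hj0
    (fun x : ((i : β) → Fin (e i)) × Fin δ => (f x.1 x.2 : Ω)) (fun x => (f x.1 x.2).2)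
  have hyp : ∀ k, y j0 ^ k ∈ Pc κ y k := fun k => by
    have := Pc_pow (Pc_X (κ := κ) y j0) k
    rwa [one_mul] at this
  have hpart1 : ∀ t, ∀ x ∈ Pc κ u t, x * b ∈ LinearMap.range (Lm (Pc κ y (t + N)) m) := by
    intro t
    apply Pc_induction
    intro ρ hρ
    rw [Fintype.prod_sum_type]
    rw [Fintype.sum_sum_type] at hρ
    choose a ha1 ha2 using fun i => red_pow (he i) (hg i) (hz i) (ρ (Sum.inr i))
    have hzp : ∀ i, z i ^ ρ (Sum.inr i) = ∑ k : Fin (e i), a i k * s0 ^ (k : ℕ) * v i ^ (k : ℕ) := by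
      intro i
      rw [ha2 i, Finset.sum_range]
      refine Finset.sum_congr rfl fun k _ => ?_
      rw [mul_assoc, ← mul_pow]
      simp only [hv]
      rw [mul_div_cancel₀ _ hs00]
    have hprod : ∏ i, u (Sum.inr i) ^ ρ (Sum.inr i) =
        ∑ γ : (i : β) → Fin (e i), ∏ i, (a i (γ i) * s0 ^ (γ i : ℕ) * v i ^ (γ i : ℕ)) := by
      have h1 : ∏ i, u (Sum.inr i) ^ ρ (Sum.inr i) =
          ∏ i, ∑ k : Fin (e i), a i k * s0 ^ (k : ℕ) * v i ^ (k : ℕ) :=
        Finset.prod_congr rfl fun i _ => hzp i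
      rw [h1, Finset.prod_univ_sum, Fintype.piFinset_univ]
    rw [hprod, Finset.mul_sum, Finset.sum_mul]
    refine Submodule.sum_mem _ fun γ _ => ?_
    by_cases hzero : ∃ i, a i (γ i) = 0
    · obtain ⟨i, hi⟩ := hzero
      rw [Finset.prod_eq_zero (Finset.mem_univ i) (by rw [hi, zero_mul, zero_mul]), mul_zero,
        zero_mul]
      exact Submodule.zero_mem _
    push Not at hzero
    have hle : ∀ i, (γ i : ℕ) ≤ ρ (Sum.inr i) := fun i => ((ha1 i (γ i)).resolve_right (hzero i)).1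
    have hmem : ∀ i, a i (γ i) ∈ Pc κ y (1 * (ρ (Sum.inr i) - γ i)) := fun i =>
      ((ha1 i (γ i)).resolve_right (hzero i)).2
    set A : Ω := (∏ j, y j ^ ρ (Sum.inl j)) * ((∏ i, a i (γ i)) *
      s0 ^ (∑ i, (γ i : ℕ))) with hA
    have hAm : A ∈ Pc κ y t := by
      have h1 : ∏ j, y j ^ ρ (Sum.inl j) ∈ Pc κ y (∑ j, 1 * ρ (Sum.inl j)) :=
        Pc_prod _ _ _ fun j _ => Pc_pow (Pc_X y j) _
      have h2 : ∏ i, a i (γ i) ∈ Pc κ y (∑ i, 1 * (ρ (Sum.inr i) - γ i)) :=
        Pc_prod _ _ _ fun i _ => hmem i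
      have h3 : s0 ^ (∑ i, (γ i : ℕ)) ∈ Pc κ y (∑ i, (γ i : ℕ)) := hyp _
      have h4 := Pc_mul h1 (Pc_mul h2 h3)
      have h5 : ∑ j, 1 * ρ (Sum.inl j) + (∑ i, 1 * (ρ (Sum.inr i) - γ i)
          + ∑ i, (γ i : ℕ)) = t := by
        rw [← hρ, ← Finset.sum_add_distrib]
        congr 1
        · exact Finset.sum_congr rfl fun j _ => by rw [one_mul]
        · refine Finset.sum_congr rfl fun i _ => ?_
          rw [one_mul, Nat.sub_add_cancel (hle i)]
      rwa [h5] at h4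
    have hx : (∏ j, u (Sum.inl j) ^ ρ (Sum.inl j)) *
        (∏ i, (a i (γ i) * s0 ^ (γ i : ℕ) * v i ^ (γ i : ℕ))) = A * ∏ i, v i ^ (γ i : ℕ) := by
      rw [Finset.prod_mul_distrib, Finset.prod_mul_distrib, Finset.prod_pow_eq_pow_sum, hA]
      simp only [hu, Sum.elim_inl]
      ring
    rw [hx, hf γ, mul_right_comm, Finset.mul_sum]
    refine ⟨fun k => ⟨A * ((f γ k : Ω) * b), Pc_mul hAm (hfb (γ, k))⟩, ?_⟩
    rw [Lm_apply]
    refine Finset.sum_congr rfl fun k _ => ?_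
    change A * ((f γ k : Ω) * b) * m k = A * b * ((f γ k : Ω) * m k)
    ring
  -- part two
  have hpart2 : ∀ t, ∀ x ∈ Pc κ y t, x ∈ Pc κ u t := by
    intro t x hx
    have h1 := Pc_induction (κ := κ) (u := y) (t := t) 1 (Pc κ u t) (fun ρ hρ => by
      rw [mul_one]
      have h2 : ∏ j, y j ^ ρ j ∈ Pc κ u (∑ j, 1 * ρ j) :=
        Pc_prod _ _ _ fun j _ => Pc_pow (Pc_X u (Sum.inl j)) _
      simp only [one_mul] at h2
      rwa [hρ] at h2) x hx
    rwa [mul_one] at h1
  refine ⟨δ, N, τ, hδ0, hδ1, fun t => ⟨?_, ?_⟩⟩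
  · have h1 : (Pc κ u t).map (LinearMap.mulRight κ b)
        ≤ LinearMap.range (Lm (Pc κ y (t + N)) m) := by
      rintro _ ⟨x, hx, rfl⟩
      exact hpart1 t x hx
    have h2 := Submodule.finrank_mono h1
    have h3 : Module.finrank κ ((Pc κ u t).map (LinearMap.mulRight κ b))
        = Module.finrank κ (Pc κ u t) :=
      (Submodule.equivMapOfInjective _ (fun x x' hxy => mul_right_cancel₀ hb0 hxy)
        _).finrank_eq.symm
    rw [h3] at h2
    refine h2.trans ((LinearMap.finrank_range_le _).trans ?_)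
    rw [Module.finrank_pi_fintype]
    simp
  · set V := Pc κ y t with hV
    have h1 : Function.Injective (Lm V (fun k => s0 ^ τ * m k)) := by
      rw [injective_iff_map_eq_zero]
      intro a ha
      rw [Lm_apply] at ha
      have haF : ∀ k, (a k : Ω) / y j0 ^ t ∈ KA := fun k => Pc_div_mem hj0 (a k).2
      rw [Fintype.linearIndependent_iff] at hμi
      have hne : s0 ^ τ * y j0 ^ t ≠ 0 :=
        mul_ne_zero (pow_ne_zero _ hs00) (pow_ne_zero _ hj0)
      have h2 := hμi (fun k => ⟨_, haF k⟩) (by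
        have h3 : s0 ^ τ * y j0 ^ t *
            ∑ k, (⟨_, haF k⟩ : KA) • ∏ i, v i ^ μ k i = 0 := by
          rw [← ha, Finset.mul_sum]
          refine Finset.sum_congr rfl fun k _ => ?_
          rw [Algebra.smul_def]
          change s0 ^ τ * y j0 ^ t * ((a k : Ω) / y j0 ^ t * m k) = _
          have h4 : y j0 ^ t * ((a k : Ω) / y j0 ^ t) = a k :=
            mul_div_cancel₀ _ (pow_ne_zero _ hj0)
          calc s0 ^ τ * y j0 ^ t * ((a k : Ω) / y j0 ^ t * m k)
              = s0 ^ τ * (y j0 ^ t * ((a k : Ω) / y j0 ^ t)) * m k := by ring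
            _ = (a k : Ω) * (s0 ^ τ * m k) := by rw [h4]; ring
        exact (mul_eq_zero.mp h3).resolve_left hne)
      funext k
      apply Subtype.ext
      have h3 := congrArg (fun z : KA => (z : Ω)) (h2 k)
      have h4 : (a k : Ω) / y j0 ^ t = 0 := h3
      rw [div_eq_zero_iff] at h4
      exact h4.resolve_right (pow_ne_zero _ hj0)
    have h2 : LinearMap.range (Lm V (fun k => s0 ^ τ * m k)) ≤ Pc κ u (t + τ) := by
      rintro _ ⟨a, rfl⟩
      rw [Lm_apply]
      refine Submodule.sum_mem _ fun k _ => ?_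
      exact Pc_mul (hpart2 t _ (a k).2) (hMk k)
    have h3 := Submodule.finrank_mono h2
    rw [LinearMap.finrank_range_of_inj h1, Module.finrank_pi_fintype] at h3
    simpa using h3

theorem cmp4 (j0 : X) (hj0 : y j0 ≠ 0) (hz : ∀ i, IntRel (κ := κ) y 1 (z i))
    (hgr : ∃ C : ℕ, ∀ t, Module.finrank κ (Pc κ (Sum.elim y z) t) ≤ C * (t + 1)) :
    ∃ K a b δ : ℕ, 0 < δ ∧
      (∀ t ≥ K, Module.finrank κ (Pc κ (Sum.elim y z) (t + 1))
        = Module.finrank κ (Pc κ (Sum.elim y z) t) + a) ∧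
      (∀ t ≥ K, Module.finrank κ (Pc κ y (t + 1)) = Module.finrank κ (Pc κ y t) + b) ∧
      a = δ * b ∧ ((∀ i, z i / y j0 ∈ RF κ y j0) → a = b) := by
  choose e he g hg hz' using hz
  obtain ⟨δ, c1, c2, hδ, hδ1, hc⟩ := compare4 j0 hj0 he g hg hz'
  obtain ⟨K1, a1, hK1⟩ := Pc_ev_lin (κ := κ) (Sum.elim y z) hgr
  obtain ⟨C, hC⟩ := hgr
  obtain ⟨K2, b1, hK2⟩ := Pc_ev_lin (κ := κ) y ⟨C * (c2 + 1), fun t => by
    calc Module.finrank κ (Pc κ y t) ≤ δ * Module.finrank κ (Pc κ y t) :=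
          Nat.le_mul_of_pos_left _ hδ
      _ ≤ Module.finrank κ (Pc κ (Sum.elim y z) (t + c2)) := (hc t).2
      _ ≤ C * (t + c2 + 1) := hC _
      _ ≤ C * (c2 + 1) * (t + 1) := by
        rw [mul_assoc]
        apply Nat.mul_le_mul_left
        nlinarith⟩
  have hslope := slope_eq (fun t => Module.finrank κ (Pc κ y t))
    (fun t => Module.finrank κ (Pc κ (Sum.elim y z) t)) 1 δ b1 a1 K2 K1 c2 c1 hK2 hK1
    (fun t => by
      rw [one_mul]; exact (hc t).2)
    (fun t => by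
      rw [one_mul]; exact (hc t).1)
    Nat.one_pos
  rw [one_mul] at hslope
  refine ⟨max K1 K2, a1, b1, δ, hδ, fun t ht => hK1 t ((le_max_left _ _).trans ht),
    fun t ht => hK2 t ((le_max_right _ _).trans ht), hslope.symm, fun h => ?_⟩
  rw [← hslope, hδ1 h, one_mul]

end cmp

theorem cmp_holds : Pool.Agent.Z894.CP.MCmp := by
  intro κ Ω _ _ _ X β _ _ y z j0 hj0 hz hgr
  exact cmp4 j0 hj0 hz hgr

end Pool.Agent.Y170.MB
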